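import Mathlib
import Pool.Agent.Q168.BPB.Basic

set_option autoImplicit false

namespace Pool.Agent.Results.MP_7e7193_an.ModulusBound

open Pool.Agent.Q168.BPB

universe u

/-- `δ` is admissible for `X` and `ε`: every pair `(x, x*)` of norm one elements of `X` and `X*`
with `x*(x) > 1 - ε` lies, in both coordinates, at distance `< δ` from a pair `(y, y*)` of norm
one elements of `X` and `X*` with `|y*(y)| = 1`. -/
def Admissible (X : Type u) [NormedAddCommGroup X] [NormedSpace ℝ X] (ε δ : ℝ) : Prop :=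
  ∀ (x : X) (f : X →L[ℝ] ℝ), ‖x‖ = 1 → ‖f‖ = 1 → 1 - ε < f x →
    ∃ (y : X) (g : X →L[ℝ] ℝ), ‖y‖ = 1 ∧ ‖g‖ = 1 ∧ |g y| = 1 ∧ ‖x - y‖ < δ ∧ ‖f - g‖ < δ

/-- The Bishop–Phelps–Bollobás modulus `Φ^S(X, ℝ, ε)`: the infimum of all admissible `δ > 0`. -/
noncomputable def Phi (X : Type u) [NormedAddCommGroup X] [NormedSpace ℝ X] (ε : ℝ) : ℝ :=
  sInf {δ : ℝ | 0 < δ ∧ Admissible X ε δ}

/-- For every nonzero real Banach space `X` and `ε ∈ (0, 2)`: all `δ > min {√(2ε), 1}` are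
admissible, and `Φ^S(X, ℝ, ε) ≤ min {√(2ε), 1}`. -/
theorem result (X : Type u) [NormedAddCommGroup X] [NormedSpace ℝ X] [CompleteSpace X]
    [Nontrivial X] (ε : ℝ) (hε : 0 < ε) (hε2 : ε < 2) :
    (∀ δ : ℝ, min (√(2 * ε)) 1 < δ → Admissible X ε δ) ∧ Phi X ε ≤ min (√(2 * ε)) 1 := by
  have hs : 0 < √(2 * ε) := Real.sqrt_pos.2 (by positivity)
  have main : ∀ δ : ℝ, min (√(2 * ε)) 1 < δ → Admissible X ε δ := by
    intro δ hδ x f hx hf hfx
    rcases min_lt_iff.1 hδ with h | h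
    · obtain ⟨y, g, h1, h2, h3, h4, h5⟩ := bpb x hx.le f hf ε hε hε2 hfx
      exact ⟨y, g, h1, h2, by rw [h3, abs_one], h4.trans h, lt_of_le_of_lt h5 h⟩
    · rcases le_or_gt 0 (f x) with h0 | h0
      · exact bound_one x hx f hf h0 δ h
      · obtain ⟨y, g, h1, h2, h3, h4, h5⟩ := bound_one x hx (-f) (by rw [norm_neg, hf])
          (by rw [neg_apply]; linarith) δ h
        refine ⟨y, -g, h1, by rw [norm_neg, h2], by rw [neg_apply, abs_neg, h3], h4, ?_⟩
        have : f - -g = -(-f - g) := by abel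
        rw [this, norm_neg]
        exact h5
  refine ⟨main, ?_⟩
  apply le_of_forall_pos_le_add
  intro η hη
  apply csInf_le
  · exact ⟨0, fun δ hδ => hδ.1.le⟩
  · refine ⟨?_, main _ (by linarith)⟩
    have : 0 < min (√(2 * ε)) 1 := lt_min hs one_pos
    linarith

end Pool.Agent.Results.MP_7e7193_an.ModulusBound
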